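import Pool.Agent.TH814.GD.Ax

/-!
An Ax-Schanuel theorem for the Gamma function in corank at most one: for `n` nonconstant analytic
functions of several variables, no two of which differ by a constant integer, whose Jacobian
matrix has rank `r` at some point, at least `r + min n (r + 1)` of the functions
`f₁, …, f_n, Γ ∘ f₁, …, Γ ∘ f_n` are algebraically independent over the complex numbers. If
`n ≤ r + 1`, this is the bound `n + r` of the theorem of Ax and Schanuel.
-/

set_option autoImplicit false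

namespace Pool.Agent.Results.MP_26ad15_nt.AxSchanuelCorankOne

theorem result :
    ∀ (d n r : ℕ) (Ω : Set (Fin d → ℂ)) (f : Fin n → (Fin d → ℂ) → ℂ),
      IsOpen Ω → IsPreconnected Ω → (∀ i, AnalyticOnNhd ℂ (f i) Ω) →
      (∀ i, ∀ v : ℂ, ¬ ∀ x ∈ Ω, f i x = v) →
      (∀ i j, i ≠ j → ∀ m : ℤ, ¬ ∀ x ∈ Ω, f i x = f j x + m) →
      (∃ x ∈ Ω, Module.finrank ℂ
        (Submodule.span ℂ (Set.range fun i => fderiv ℂ (f i) x)) = r) →
      ∃ e : Fin (min n (r + 1) + r) → Fin n ⊕ Fin n, Function.Injective e ∧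
        ∀ P : MvPolynomial (Fin (min n (r + 1) + r)) ℂ, P ≠ 0 →
          ∃ x ∈ Ω, (∀ i, ∀ m : ℕ, f i x ≠ -m) ∧
            MvPolynomial.eval (fun k => Sum.elim (fun i => f i x)
              (fun i => Complex.Gamma (f i x)) (e k)) P ≠ 0 :=
  fun _ _ _ _ _ hΩ hp hf hne hd hr => Pool.Agent.TH814.GD.ax hΩ hp hf hne hd hr

end Pool.Agent.Results.MP_26ad15_nt.AxSchanuelCorankOne
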