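import Pool.Agent.TH814.GD.Exc

/-!
The exceptional set of the Schanuel-type conjecture for the Gamma function: tuples of
transcendence degree at most `2 m + 2` lie in countably many analytic images of open subsets
of `ℂ ^ m`.
-/

set_option autoImplicit false

namespace Pool.Agent.Results.MP_26ad15_nt.ExceptionalTuples

theorem result :
    ∀ (F : Type) [Field F] [Algebra F ℂ] [Countable F] (n m : ℕ),
      ∃ (Φ : ℕ → (Fin m → ℂ) → (Fin n → ℂ)) (U : ℕ → Set (Fin m → ℂ)),
        (∀ k, IsOpen (U k)) ∧ (∀ k, AnalyticOnNhd ℂ (Φ k) (U k)) ∧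
        {z : Fin n → ℂ |
          (∃ J : Finset (Fin n), J.card = m + 2 ∧
            ∀ j ∈ J, ¬ (IsAlgebraic F (z j) ∧ IsAlgebraic F (Complex.Gamma (z j)))) ∧
          (∀ i j, i ≠ j → ∀ k : ℤ, z i ≠ z j + k) ∧
          Algebra.trdeg F (IntermediateField.adjoin F
            (Set.range z ∪ Set.range fun i => Complex.Gamma (z i))) ≤
              ((2 * m + 2 : ℕ) : Cardinal)} ⊆
          ⋃ k, Φ k '' U k := by
  intro F _ _ _ n m
  exact Pool.Agent.TH814.GD.main F n m

end Pool.Agent.Results.MP_26ad15_nt.ExceptionalTuples
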