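import Pool.Agent.TH659.AQ.Grow

/-!
# π and values of the Gamma function at `α_1 q + γ_1, …, α_n q + γ_n`, for almost all rational numbers `q`

Let `α_j > 0` and `γ_j` be real numbers such that no nonzero integer vector `m` satisfies both `∑ m_j α_j = 0` and
`∑ m_j α_j log α_j = 0` (for instance: the `α_j` are linearly independent over `ℚ`). For all but few rational numbers
`q` of `[a, b]` the `n + 1` numbers `π`, `Γ(α_j q + γ_j)` satisfy no polynomial relation, not even an approximate one,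
of given degree and polynomially bounded height.
-/

set_option autoImplicit false

namespace Pool.Agent.Results.MP_26ad15_nt.RationalParameters

/-- The `n + 1` numbers `π` and `Γ(α_j q + γ_j)`, `j = 1, …, n`. -/
noncomputable def values {n : ℕ} (α γ : Fin n → ℝ) (q : ℚ) (x : Option (Fin n)) : ℝ :=
  match x with
  | none => Real.pi
  | some j => Real.Gamma (α j * q + γ j)

/-- The rational numbers `q` in `[a, b]` with denominator at most `T` for which some nonzero polynomial in `n + 1`
variables with integer coefficients of absolute value at most `T ^ A`, of degree at most `d` in each variable, takes at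
`π`, `Γ(α_j q + γ_j)` a value of absolute value at most `T ^ (-B)`. -/
def Exceptional {n : ℕ} (α γ : Fin n → ℝ) (d : ℕ) (a b A B T : ℝ) : Set ℚ :=
  {q | a ≤ q ∧ q ≤ b ∧ (q.den : ℝ) ≤ T ∧
    ∃ P : MvPolynomial (Option (Fin n)) ℤ, P ≠ 0 ∧ (∀ x, P.degreeOf x ≤ d) ∧
      (∀ s, |((P.coeff s : ℤ) : ℝ)| ≤ T ^ A) ∧ |MvPolynomial.aeval (values α γ q) P| ≤ T ^ (-B)}

/-- Let `a < b`, `α_j > 0`, `α_j a + γ_j > 0`, let `d` and `A ≥ 0` be given and let `β > 2 - 2 / ((d + 1)^(n + 1) + 1)`.
There are `B` and `C` such that for all `T ≥ 1` the number of exceptional `q` is at most `C T^β` (whereas the number of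
all rational numbers in `[a, b]` with denominator at most `T` is about `T ^ 2`). -/
theorem result (n d : ℕ) (α γ : Fin n → ℝ) (hα : ∀ j, 0 < α j)
    (hH : ∀ m : Fin n → ℤ, ∑ j, (m j : ℝ) * α j = 0 → ∑ j, (m j : ℝ) * (α j * Real.log (α j)) = 0 → m = 0)
    (a b : ℝ) (hab : a < b) (ha : ∀ j, 0 < α j * a + γ j) (A β : ℝ) (hA : 0 ≤ A)
    (hβ : 2 - 2 / (((d : ℝ) + 1) ^ (n + 1) + 1) < β) :
    ∃ B C : ℝ, ∀ T : ℝ, 1 ≤ T → (Exceptional α γ d a b A B T).Finite ∧
      ((Exceptional α γ d a b A B T).ncard : ℝ) ≤ C * T ^ β := by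
  obtain ⟨B, C, h⟩ := TH659.AQ.final n d (TH659.AQ.gf α γ) a b hab
    (fun j t ht => TH659.AQ.gf_an α γ j (TH659.AQ.arg_pos α γ hα ha j ht.1))
    (TH659.AQ.gam_ind α γ d hα hH a b ha hab) A β hA hβ
  refine ⟨B, C, fun T hT => ?_⟩
  have hv : ∀ q : ℚ, values α γ q = TH659.AQ.vals (TH659.AQ.gf α γ) (q : ℝ) := by
    intro q
    funext x
    cases x <;> rfl
  have hE : Exceptional α γ d a b A B T = TH659.AQ.Ex (TH659.AQ.gf α γ) d a b A B T := by
    ext q
    simp only [Exceptional, TH659.AQ.Ex, hv]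
  rw [hE]
  exact h T hT

end Pool.Agent.Results.MP_26ad15_nt.RationalParameters
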