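import Pool.Agent.TH814.GD.AlgMain
import Pool.Agent.W175.GF.Final
import Pool.Agent.W253.GF.GTD

/-!
The Schanuel-type conjecture for the Gamma function for tuples of transcendence degree `m + 1` over
an arbitrary countable field: the exceptional tuples lie in countably many analytic images of open
subsets of `ℂ ^ m`.
-/

set_option autoImplicit false

namespace Pool.Agent.Results.MP_26ad15_nt.TrdegAny

theorem result :
    ∀ (F : Type) [Field F] [Algebra F ℂ] [Countable F] (n m : ℕ),
      ∃ (Φ : ℕ → (Fin m → ℂ) → (Fin n → ℂ)) (U : ℕ → Set (Fin m → ℂ)),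
        (∀ k, IsOpen (U k)) ∧ (∀ k, AnalyticOnNhd ℂ (Φ k) (U k)) ∧
        {z : Fin n → ℂ |
          Algebra.trdeg F (IntermediateField.adjoin F (Set.range z)) ≤
            ((m + 1 : ℕ) : Cardinal) ∧
          (∀ i j, i ≠ j → ∀ p q : ℚ, z i ≠ p * z j + q) ∧
          Algebra.trdeg F (IntermediateField.adjoin F
            (Set.range z ∪ Set.range fun i => Complex.Gamma (z i))) <
              ((Nat.card {i // ¬ IsAlgebraic F (z i)} + (m + 1) : ℕ) : Cardinal)} ⊆
          ⋃ k, Φ k '' U k := by
  intro F _ _ _ n m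
  exact Pool.Agent.TH814.GD.main_alg (Pool.Agent.W253.GF.gtd Pool.Agent.W175.GF.gtF) F n m

end Pool.Agent.Results.MP_26ad15_nt.TrdegAny
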